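import Pool.Agent.Lib_helper68.MC.DefsD
import Pool.Agent.Lib_helper89.HE.GL
import Pool.Agent.Lib_helper14.MC.TL

/-! Project MC (MP_b08f5f_an, microcanonical), block A2: all times `|t| ≤ T`, fixed target. -/

set_option autoImplicit false

namespace Pool.Agent.Lib_helper68.MC

open MeasureTheory Filter Topology Set
open scoped ComplexConjugate ENNReal NNReal
open Pool.Agent.Lib_helper25.PV (Conf vel Motion centre inertia NC VFlow)
open Pool.Agent.Lib_helper12.HE (ham rad nrm Gam sig shell turn one LimAvg GL_nrm GL_rad_flow)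

noncomputable section

theorem A2_meas_centre (N : ℕ) : Measurable (centre (N := N)) := by
  unfold centre
  fun_prop

theorem A2_meas_rad (N : ℕ) : Measurable (rad (N := N)) := by
  unfold rad centre
  fun_prop

theorem A2_meas_nrm (N : ℕ) : Measurable (nrm (N := N)) := by
  refine measurable_pi_lambda _ fun i => ?_
  unfold nrm
  have h1 := A2_meas_rad N
  have h2 := A2_meas_centre N
  fun_prop

theorem A2_meas_shell (N : ℕ) (ε : ℝ) : MeasurableSet (shell N ε) := by
  refine MeasurableSet.inter ?_ (MeasurableSet.inter ?_ ?_)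
  · exact measurableSet_le (A2_meas_centre N).norm measurable_const
  · exact measurableSet_le measurable_const (A2_meas_rad N)
  · exact measurableSet_lt (A2_meas_rad N) measurable_const

theorem A2_inj_of_nrm {N : ℕ} {z : Conf N} (h : nrm z ∈ Gam N) : Function.Injective z := by
  intro i j hij
  apply h.1
  simp only [nrm, hij]

/-- `Bc` is a closed condition -/
theorem A2_meas_Bc {N : ℕ} {F : Finset ((ℂ → ℝ) × ℝ)} (hF : ∀ p ∈ F, Continuous p.1) (ε : ℝ) :
    MeasurableSet {y : Conf N | Bc F ε y} := by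
  have h : {y : Conf N | Bc F ε y} =
      ⋃ p ∈ F, {y : Conf N | ε ≤ |one N p.1 y - p.2|} := by
    ext y
    simp [Bc]
  rw [h]
  refine Finset.measurableSet_biUnion _ fun p hp => ?_
  have hc := hF p hp
  refine measurableSet_le measurable_const (Continuous.measurable ?_)
  unfold one
  fun_prop

/-- the core, from a Lipschitz bound in time -/
theorem A2_core {F : Finset ((ℂ → ℝ) × ℝ)} (hF : ∀ p ∈ F, Continuous p.1) {L : ℝ} (hL : 0 < L)
    (hlip : ∀ p ∈ F, ∀ N : ℕ, 1 ≤ N → ∀ w : ℝ → Conf N, Motion w → ∀ s t : ℝ,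
      |one N p.1 (w t) - one N p.1 (w s)| ≤ N * L * |t - s|)
    {ε : ℝ} (hε : 0 < ε) :
    ∃ C > 0, ∀ N : ℕ, 2 ≤ N → ∀ (V : VFlow N) (A : Set (Conf N)), A ⊆ Gam N → MeasurableSet A →
      (∀ y ∈ A, ∀ t, V.φ t y ∈ A) → ∀ T : ℝ, 0 ≤ T →
      sig N {y | y ∈ A ∧ ∃ t, |t| ≤ T ∧ Bc F ε (V.φ t y)} ≤
        ENNReal.ofReal (C * N * (1 + T)) * sig N {y | y ∈ A ∧ Bc F (ε / 2) y} := by
  set δ : ℝ := ε / (2 * L) with hδ
  have hδ0 : 0 < δ := by positivity
  refine ⟨8 / δ + 3, by positivity, ?_⟩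
  intro N hN V A hA hAm hinv T hT
  have hN1 : (1 : ℝ) ≤ N := by exact_mod_cast (by omega : 1 ≤ N)
  have hN0 : (0 : ℝ) < N := by linarith
  set h : ℝ := δ / N with hh
  have hh0 : 0 < h := by positivity
  set S : Set (Conf N) := {z | z ∈ shell N 1 ∧ nrm z ∈ {y | y ∈ A ∧ Bc F (ε / 2) y}} with hS
  have hSm : MeasurableSet S :=
    (A2_meas_shell N 1).inter (A2_meas_nrm N (hAm.inter (A2_meas_Bc hF (ε / 2))))
  set K : ℤ := ⌈4 * T / h⌉ with hK
  have hK0 : 0 ≤ K := Int.ceil_nonneg (by positivity)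
  have hsub : {z | z ∈ shell N 1 ∧ nrm z ∈ {y | y ∈ A ∧ ∃ t, |t| ≤ T ∧ Bc F ε (V.φ t y)}} ⊆
      ⋃ k ∈ Finset.Icc (-K) K, V.φ (k * h) ⁻¹' S := by
    rintro z ⟨⟨hs1, hs2, hs3⟩, hzA, t, ht, p, hp, hpε⟩
    have hinj : Function.Injective z := A2_inj_of_nrm (hA hzA)
    have hr : 0 < rad z := by linarith
    have hr2 : rad z ^ 2 ≤ 4 := by nlinarith
    have hr1 : 1 ≤ rad z ^ 2 := by nlinarith
    set τ : ℝ := t * rad z ^ 2 with hτ
    have hτT : |τ| ≤ 4 * T := by
      rw [hτ, abs_mul, abs_of_nonneg (by positivity : (0 : ℝ) ≤ rad z ^ 2)]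
      nlinarith [abs_nonneg t]
    set k : ℤ := ⌊τ / h⌋ with hk
    have hk1 : (k : ℝ) ≤ τ / h := Int.floor_le _
    have hk2 : τ / h < k + 1 := Int.lt_floor_add_one _
    have hk1' : k * h ≤ τ := by rwa [le_div_iff₀ hh0] at hk1
    have hk2' : τ < (k + 1) * h := by rwa [div_lt_iff₀ hh0] at hk2
    have hd : |τ - k * h| ≤ h := by
      rw [abs_le]
      constructor <;> nlinarith
    have hmem : k ∈ Finset.Icc (-K) K := by
      rw [Finset.mem_Icc]
      rw [abs_le] at hτT
      constructor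
      · rw [hk, Int.le_floor]
        have h1 : 4 * T / h ≤ K := Int.le_ceil _
        have h2 : -(4 * T) / h ≤ τ / h := by gcongr; linarith
        push_cast
        rw [neg_div] at h2
        linarith
      · have h1 : 4 * T / h ≤ K := Int.le_ceil _
        have h2 : τ / h ≤ 4 * T / h := by gcongr; linarith
        have h3 : (k : ℝ) ≤ K := by linarith
        exact_mod_cast h3
    refine mem_biUnion hmem ?_
    have hnrm : nrm (V.φ (k * h) z) = V.φ (k * h / rad z ^ 2) (nrm z) :=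
      GL_nrm (by omega) V hinj hr _
    refine ⟨⟨?_, ?_, ?_⟩, ?_⟩
    · rw [V.cen]; exact hs1
    · rw [GL_rad_flow (by omega) V]; exact hs2
    · rw [GL_rad_flow (by omega) V]; exact hs3
    · rw [hnrm]
      refine ⟨hinv _ hzA _, p, hp, ?_⟩
      have hm : Motion (fun t => V.φ t (nrm z)) := V.motion _ (hA hzA).1
      have h1 := hlip p hp N (by omega) _ hm (k * h / rad z ^ 2) t
      have h2 : |t - k * h / rad z ^ 2| ≤ h := by
        have h3 : t - k * h / rad z ^ 2 = (τ - k * h) / rad z ^ 2 := by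
          rw [hτ]
          field_simp
        rw [h3, abs_div, abs_of_nonneg (by positivity : (0 : ℝ) ≤ rad z ^ 2)]
        rw [div_le_iff₀ (by positivity)]
        nlinarith
      have h3 : (N : ℝ) * L * |t - k * h / rad z ^ 2| ≤ ε / 2 := by
        calc (N : ℝ) * L * |t - k * h / rad z ^ 2| ≤ N * L * h := by gcongr
          _ = ε / 2 := by
            rw [hh, hδ]
            field_simp
      have h4 := h1.trans h3
      have h5 := abs_sub_abs_le_abs_sub
        (one N p.1 (V.φ t (nrm z)) - p.2)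
        (one N p.1 (V.φ (k * h / rad z ^ 2) (nrm z)) - p.2)
      rw [sub_sub_sub_cancel_right] at h5
      linarith
  unfold sig
  calc volume {z | z ∈ shell N 1 ∧ nrm z ∈ {y | y ∈ A ∧ ∃ t, |t| ≤ T ∧ Bc F ε (V.φ t y)}}
      ≤ volume (⋃ k ∈ Finset.Icc (-K) K, V.φ (k * h) ⁻¹' S) := measure_mono hsub
    _ ≤ ∑ k ∈ Finset.Icc (-K) K, volume (V.φ (k * h) ⁻¹' S) := measure_biUnion_finset_le _ _
    _ = ∑ _k ∈ Finset.Icc (-K) K, volume S := by
        refine Finset.sum_congr rfl fun k _ => ?_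
        exact (V.mp _).measure_preimage hSm.nullMeasurableSet
    _ = ((Finset.Icc (-K) K).card : ℝ≥0∞) * volume S := by
        rw [Finset.sum_const, nsmul_eq_mul]
    _ ≤ ENNReal.ofReal ((8 / δ + 3) * N * (1 + T)) * volume S := by
        gcongr
        rw [← ENNReal.ofReal_natCast]
        apply ENNReal.ofReal_le_ofReal
        have h1 : ((Finset.Icc (-K) K).card : ℝ) = 2 * K + 1 := by
          rw [Int.card_Icc]
          have : ((K + 1 - -K).toNat : ℤ) = 2 * K + 1 := by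
            rw [Int.toNat_of_nonneg (by omega)]
            ring
          exact_mod_cast this
        rw [h1]
        have h2 : (K : ℝ) < 4 * T / h + 1 := Int.ceil_lt_add_one _
        have h3 : 4 * T / h = 4 * T * N / δ := by
          rw [hh]
          field_simp
        rw [h3] at h2
        have h4 : (8 / δ + 3) * N * (1 + T) =
            8 * T * N / δ + 8 * N / δ + 3 * N * (1 + T) := by ring
        rw [h4]
        have h5 : 0 ≤ 8 * N / δ := by positivity
        have h6 : (3 : ℝ) ≤ 3 * N * (1 + T) := by nlinarith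
        have h7 : 2 * (4 * T * N / δ + 1) + 1 = 8 * T * N / δ + 3 := by ring
        linarith

theorem A2_main {F : Finset ((ℂ → ℝ) × ℝ)} (hF : ∀ p ∈ F, Tst p.1) {ε : ℝ} (hε : 0 < ε) :
    ∃ C > 0, ∀ N : ℕ, 2 ≤ N → ∀ (V : VFlow N) (A : Set (Conf N)), A ⊆ Gam N → MeasurableSet A →
      (∀ y ∈ A, ∀ t, V.φ t y ∈ A) → ∀ T : ℝ, 0 ≤ T →
      sig N {y | y ∈ A ∧ ∃ t, |t| ≤ T ∧ Bc F ε (V.φ t y)} ≤
        ENNReal.ofReal (C * N * (1 + T)) * sig N {y | y ∈ A ∧ Bc F (ε / 2) y} := by
  have h1 : ∀ p ∈ F, ∃ L, ∀ x y, ‖fderiv ℝ p.1 x - fderiv ℝ p.1 y‖ ≤ L * ‖x - y‖ :=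
    fun p hp => (hF p hp).2.2.2
  choose! Lp hLp using h1
  have h2 : ∀ p ∈ F, Lp p ≤ 1 + ∑ q ∈ F, |Lp q| := by
    intro p hp
    have h3 := Finset.single_le_sum (f := fun q => |Lp q|) (fun q _ => abs_nonneg _) hp
    have h4 := le_abs_self (Lp p)
    linarith
  have h0 : 0 < 1 + ∑ q ∈ F, |Lp q| := by
    have := Finset.sum_nonneg fun q (_ : q ∈ F) => abs_nonneg (Lp q)
    linarith
  refine A2_core (fun p hp => (hF p hp).1) h0 ?_ hε
  intro p hp N hN w hw s t
  have hN0 : (0 : ℝ) < N := by exact_mod_cast (by omega : 0 < N)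
  have hd := (hF p hp).2.2.1
  have h5 := TL_main hN hw hd (hLp p hp) s t
  have h10 : (N : ℝ) * Lp p / (4 * Real.pi) * |t - s| ≤
      N * (1 + ∑ q ∈ F, |Lp q|) * |t - s| := by
    have h11 : (N : ℝ) * Lp p / (4 * Real.pi) ≤ N * (1 + ∑ q ∈ F, |Lp q|) := by
      have hpi := Real.pi_gt_three
      calc (N : ℝ) * Lp p / (4 * Real.pi) ≤ N * (1 + ∑ q ∈ F, |Lp q|) / (4 * Real.pi) := by
            gcongr
            exact h2 p hp
        _ ≤ N * (1 + ∑ q ∈ F, |Lp q|) / 1 := by
            gcongr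
            linarith
        _ = N * (1 + ∑ q ∈ F, |Lp q|) := by ring
    exact mul_le_mul_of_nonneg_right h11 (abs_nonneg _)
  exact h5.trans h10

end

end Pool.Agent.Lib_helper68.MC
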